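import Pool.Agent.Lib.MP_4583ef_ag.Main

/-!
# Subadditivity of adjoint ideals fails in some regular local ring

The ring of the proof has dimension four and characteristic five. Let `A` be a discrete valuation
ring with uniformizer `t` inside `k[[t]]`, and `u` in `k[[t]]` a series that is not in `A` while
`U = u ^ 5` is in `A`. The ring is the localisation of `A[x, y, z]` at `(t, x, y, z)`, and the
ideals are `(y ^ 4, x ^ 5 - U)` and `(z ^ 4, x ^ 5 - U)`. The element `(x ^ 5 - U) y ^ 2 z ^ 2` is
integral over the product, so it lies in its adjoint, but the adjoints of the two ideals are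
contained in `(y ^ 3, x ^ 5 - U)` and `(z ^ 3, x ^ 5 - U)`: this is seen by the prime divisors
`R[(x - a) / t ^ (4 N), y / t ^ (5 N)]` localised at `(t)`, with `a` a truncation of `u`.
-/

namespace Pool.Agent.Results.MP_4583ef_ag.NotSubadditive

open Pool.Agent.Lib.MP4583ef

theorem result : ∃ (R : Type) (_ : CommRing R) (_ : IsDomain R) (_ : IsRegularLocalRing R)
    (I J : Ideal R), I ≠ ⊥ ∧ J ≠ ⊥ ∧ ¬ adj (I * J) ≤ adj I * adj J :=
  exists_counterexample

end Pool.Agent.Results.MP_4583ef_ag.NotSubadditive
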